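import Pool.Agent.R132.APN3
import Pool.Agent.R132.APNQuad

set_option autoImplicit false

/-!
# The maximal exclude multiplicity is not attained for plateaued APN functions

Let `n = 2 k ≥ 4`, `F` plateaued APN and suppose that `(a, b)` has multiplicity `(2^n - 1) / 3`. Let
`c = F a + b`. Then all components `v` with `v · c = 1` are bent.

(1) From the fourth moment of an APN function, the number of bent components is `2` modulo `4`, so the
number `A` of the bent components with `v · c = 0` is `2` modulo `4`.

(2) The Boolean function `h(v) = 1` iff `v` is bent has degree at most `k`: the sum of `W_F(0, v)` over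
a subspace of dimension `m` is divisible by `2^m`, and `W_F(0, v)` is an odd multiple of `2^k`
exactly for bent `v`. As `h = 1` on the complement of the hyperplane `v · c = 0`, the restriction of
`h` to this hyperplane has degree at most `k - 1`. A Boolean function of degree at most `k - 1` in
`2 k - 1` variables has weight divisible by `4`. So `A` is divisible by `4`, a contradiction.
-/

namespace Pool.Agent.Results.MP_4cdc07_co.NotAttained

open Finset

/-- the standard inner product on `F_2^n` -/
def dot {n : ℕ} (u x : Fin n → ZMod 2) : ZMod 2 := ∑ i, u i * x i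

/-- the Walsh transform `W_F(u, v) = ∑ (-1)^(v · F(x) + u · x)` -/
def walsh {n : ℕ} (F : (Fin n → ZMod 2) → (Fin n → ZMod 2)) (u v : Fin n → ZMod 2) : ℤ :=
  ∑ x, (-1) ^ (dot v (F x) + dot u x).val

/-- `F` is APN: for `a ≠ 0` every equation `F x + F (x + a) = b` has at most two solutions. -/
def IsAPN {n : ℕ} (F : (Fin n → ZMod 2) → (Fin n → ZMod 2)) : Prop :=
  ∀ a, a ≠ 0 → ∀ b, (univ.filter fun x => F x + F (x + a) = b).card ≤ 2

/-- `F` is plateaued: for every `v ≠ 0` there is `λ ≥ 0` with `W_F(u, v) ∈ {0, λ, -λ}` for all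
`u`. -/
def IsPlateaued {n : ℕ} (F : (Fin n → ZMod 2) → (Fin n → ZMod 2)) : Prop :=
  ∀ v, v ≠ 0 → ∃ lam : ℝ, 0 ≤ lam ∧ ∀ u, (walsh F u v : ℝ) = 0 ∨ (walsh F u v : ℝ) = lam ∨
    (walsh F u v : ℝ) = -lam

/-- the derivative `D_a F` -/
def D {n : ℕ} (F : (Fin n → ZMod 2) → (Fin n → ZMod 2)) (a x : Fin n → ZMod 2) :
    Fin n → ZMod 2 := F (x + a) + F x

/-- `F` is quadratic: every derivative `D_a F` is an affine map over `F_2`, that is
`D_a F (x + y) + D_a F x + D_a F y + D_a F 0 = 0`. -/
def IsQuadratic {n : ℕ} (F : (Fin n → ZMod 2) → (Fin n → ZMod 2)) : Prop :=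
  ∀ a x y, D F a (x + y) + D F a x + D F a y + D F a 0 = 0

/-- the graph of `F` -/
def graph {n : ℕ} (F : (Fin n → ZMod 2) → (Fin n → ZMod 2)) :
    Finset ((Fin n → ZMod 2) × (Fin n → ZMod 2)) := univ.image fun x => (x, F x)

/-- the exclude multiplicity: the number of the 3-element subsets of the graph with sum `p` -/
def mult {n : ℕ} (F : (Fin n → ZMod 2) → (Fin n → ZMod 2))
    (p : (Fin n → ZMod 2) × (Fin n → ZMod 2)) : ℕ :=
  (((graph F).powersetCard 3).filter fun T => ∑ t ∈ T, t = p).card

/-- Let `n ≥ 4` be even and let `F` be an APN function on `F_2^n` which is plateaued or quadratic.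
Then every point `p` outside of the graph of `F` has exclude multiplicity less than
`(2^n - 1) / 3`. -/
theorem result (n : ℕ) (hn : 4 ≤ n) (he : Even n) (F : (Fin n → ZMod 2) → (Fin n → ZMod 2))
    (hA : IsAPN F) (hP : IsPlateaued F ∨ IsQuadratic F)
    (p : (Fin n → ZMod 2) × (Fin n → ZMod 2)) (hp : p ∉ graph F) :
    3 * mult F p < 2 ^ n - 1 := by
  obtain ⟨a, b⟩ := p
  have hb : b ≠ F a := by
    rintro rfl
    exact hp (mem_image.2 ⟨a, mem_univ _, rfl⟩)
  have hP' : Pool.Agent.R132.APN.IsPlateaued F := by
    rcases hP with h | h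
    · exact h
    · exact Pool.Agent.R132.APN.quad_plateaued h
  exact Pool.Agent.R132.APN.max_mult hn he hA hP' a b hb

end Pool.Agent.Results.MP_4cdc07_co.NotAttained
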